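import Pool.Agent.Y5.V.Stm

/-!
Project VL: the trilinear estimate and the orthogonality, from the symmetrised form.
-/

set_option autoImplicit false

open Set Filter Topology

namespace Pool.Agent.Y391.VL.Tri2

open Pool.Agent.Y6.M (Z3 C3 Coef dt kc cj nsq len adv leray IsField energy)
open Pool.Agent.Y5.V

/-! ### Lengths -/

/-- the vector -/
noncomputable def ve (k : Z3) : EuclideanSpace ℝ (Fin 3) := WithLp.toLp 2 (fun j => (k j : ℝ))

theorem len_eq (k : Z3) : len k = ‖ve k‖ := by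
  rw [EuclideanSpace.norm_eq, len, nsq]
  congr 1
  push_cast
  refine Finset.sum_congr rfl fun j _ => ?_
  simp [ve]

theorem ve_sub (k q : Z3) : ve (k - q) = ve k - ve q := by
  ext j
  simp [ve]

theorem ve_neg (k : Z3) : ve (-k) = -ve k := by
  ext j
  simp [ve]

theorem len_nonneg (k : Z3) : 0 ≤ len k := Real.sqrt_nonneg _

theorem len_neg (k : Z3) : len (-k) = len k := by
  rw [len_eq, len_eq, ve_neg, norm_neg]

theorem abs_len_sub (k q : Z3) : |len k - len q| ≤ len (k - q) := by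
  rw [len_eq, len_eq, len_eq, ve_sub]
  exact abs_norm_sub_norm_le _ _

/-! ### The pointwise bound -/

theorem pow_sub_le {x y : ℝ} (hy : 0 ≤ y) (hyx : y ≤ x) (N : ℕ) :
    x ^ (N + 1) - y ^ (N + 1) ≤ (N + 1) * x ^ N * (x - y) := by
  have hx : 0 ≤ x := hy.trans hyx
  induction N with
  | zero => simp
  | succ N ih =>
    have h1 : y ^ (N + 1) ≤ x ^ (N + 1) := pow_le_pow_left₀ hy hyx _
    have h2 : x ^ (N + 1 + 1) - y ^ (N + 1 + 1) =
        x * (x ^ (N + 1) - y ^ (N + 1)) + (x - y) * y ^ (N + 1) := by ring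
    have h3 : x * (x ^ (N + 1) - y ^ (N + 1)) ≤ x * ((N + 1) * x ^ N * (x - y)) :=
      mul_le_mul_of_nonneg_left ih hx
    have h4 : (x - y) * y ^ (N + 1) ≤ (x - y) * x ^ (N + 1) :=
      mul_le_mul_of_nonneg_left h1 (sub_nonneg.2 hyx)
    have h5 : ((N + 1 : ℕ) + 1 : ℝ) * x ^ (N + 1) * (x - y) =
        x * ((N + 1) * x ^ N * (x - y)) + (x - y) * x ^ (N + 1) := by
      push_cast
      ring
    rw [h2, h5]
    linarith

/-- the constant -/
noncomputable def Km (m : ℕ) : ℝ := 2 * m * 2 ^ (m - 1)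

theorem Km_nonneg (m : ℕ) : 0 ≤ Km m := by
  unfold Km
  positivity

theorem pw0 (m : ℕ) {x y d : ℝ} (hy : 0 ≤ y) (hyx : y ≤ x) (hd : x - y ≤ d) :
    |x ^ (2 * m) - y ^ (2 * m)| * min x y ≤
      Km m * (x ^ m * y ^ m * d + x ^ m * d ^ m * y + y ^ m * d ^ m * x) := by
  have hx : 0 ≤ x := hy.trans hyx
  have hd0 : 0 ≤ d := (sub_nonneg.2 hyx).trans hd
  cases m with
  | zero => simp [Km]
  | succ n =>
    have h0 : 0 ≤ x ^ (2 * (n + 1)) - y ^ (2 * (n + 1)) :=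
      sub_nonneg.2 (pow_le_pow_left₀ hy hyx _)
    rw [abs_of_nonneg h0, min_eq_right hyx]
    have h1 : x ^ (2 * (n + 1)) - y ^ (2 * (n + 1)) ≤ (2 * n + 2) * x ^ (2 * n + 1) * d := by
      have h2 := pow_sub_le hy hyx (2 * n + 1)
      have e1 : 2 * (n + 1) = 2 * n + 1 + 1 := by ring
      rw [e1]
      refine h2.trans ?_
      have e2 : (((2 * n + 1 : ℕ) : ℝ) + 1) = 2 * n + 2 := by
        push_cast
        ring
      rw [e2]
      exact mul_le_mul_of_nonneg_left hd (by positivity)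
    have hK : Km (n + 1) = (2 * n + 2) * 2 ^ n := by
      unfold Km
      rw [Nat.add_sub_cancel]
      push_cast
      ring
    have hp1 : 0 ≤ x ^ (n + 1) * y ^ (n + 1) * d := by positivity
    have hp2 : 0 ≤ x ^ (n + 1) * d ^ (n + 1) * y := by positivity
    have hp3 : 0 ≤ y ^ (n + 1) * d ^ (n + 1) * x := by positivity
    have hc : (0 : ℝ) ≤ (2 * n + 2) * 2 ^ n := by positivity
    refine (mul_le_mul_of_nonneg_right h1 hy).trans ?_
    rw [hK]
    by_cases h2 : x ≤ 2 * y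
    · have h3 : x ^ n ≤ 2 ^ n * y ^ n := by
        rw [← mul_pow]
        exact pow_le_pow_left₀ hx h2 n
      have h4 : (2 * n + 2 : ℝ) * x ^ (2 * n + 1) * d * y =
          (2 * n + 2) * (x ^ (n + 1) * d * y) * x ^ n := by ring
      have h5 : (2 * n + 2 : ℝ) * (x ^ (n + 1) * d * y) * x ^ n ≤
          (2 * n + 2) * (x ^ (n + 1) * d * y) * (2 ^ n * y ^ n) :=
        mul_le_mul_of_nonneg_left h3 (by positivity)
      have h6 : (2 * n + 2 : ℝ) * (x ^ (n + 1) * d * y) * (2 ^ n * y ^ n) =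
          (2 * n + 2) * 2 ^ n * (x ^ (n + 1) * y ^ (n + 1) * d) := by ring
      rw [h4]
      refine h5.trans ?_
      rw [h6]
      exact mul_le_mul_of_nonneg_left (by linarith) hc
    · push Not at h2
      have h2' : x ≤ 2 * d := by linarith
      have h3 : x ^ n ≤ 2 ^ n * d ^ n := by
        rw [← mul_pow]
        exact pow_le_pow_left₀ hx h2' n
      have h4 : (2 * n + 2 : ℝ) * x ^ (2 * n + 1) * d * y =
          (2 * n + 2) * (x ^ (n + 1) * d * y) * x ^ n := by ring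
      have h5 : (2 * n + 2 : ℝ) * (x ^ (n + 1) * d * y) * x ^ n ≤
          (2 * n + 2) * (x ^ (n + 1) * d * y) * (2 ^ n * d ^ n) :=
        mul_le_mul_of_nonneg_left h3 (by positivity)
      have h6 : (2 * n + 2 : ℝ) * (x ^ (n + 1) * d * y) * (2 ^ n * d ^ n) =
          (2 * n + 2) * 2 ^ n * (x ^ (n + 1) * d ^ (n + 1) * y) := by ring
      rw [h4]
      refine h5.trans ?_
      rw [h6]
      exact mul_le_mul_of_nonneg_left (by linarith) hc

theorem pw (m : ℕ) {x y d : ℝ} (hx : 0 ≤ x) (hy : 0 ≤ y) (hd : |x - y| ≤ d) :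
    |x ^ (2 * m) - y ^ (2 * m)| * min x y ≤
      Km m * (x ^ m * y ^ m * d + x ^ m * d ^ m * y + y ^ m * d ^ m * x) := by
  rcases le_total y x with h | h
  · exact pw0 m hy h ((le_abs_self _).trans hd)
  · have h1 := pw0 m (x := y) (y := x) (d := d) hx h (by
      rw [abs_sub_comm] at hd
      exact (le_abs_self _).trans hd)
    rw [abs_sub_comm, min_comm]
    refine h1.trans (le_of_eq ?_)
    ring

theorem alg (m : ℕ) {K T x y d a b c : ℝ} (hK : 0 ≤ K) (hx : 0 ≤ x) (hy : 0 ≤ y) (hd : 0 ≤ d)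
    (ha : 0 ≤ a) (hb : 0 ≤ b) (hc : 0 ≤ c)
    (h : T ≤ K * (x ^ m * y ^ m * d + x ^ m * d ^ m * y + y ^ m * d ^ m * x)) :
    T * (c * b * a) ≤ K / 2 * ((x ^ (2 * m) * a ^ 2 + y ^ (2 * m) * b ^ 2) * (d * c) +
      (x ^ (2 * m) * a ^ 2 + d ^ (2 * m) * c ^ 2) * (y * b) +
      (y ^ (2 * m) * b ^ 2 + d ^ (2 * m) * c ^ 2) * (x * a)) := by
  have h1 : T * (c * b * a) ≤
      K * (x ^ m * y ^ m * d + x ^ m * d ^ m * y + y ^ m * d ^ m * x) * (c * b * a) :=
    mul_le_mul_of_nonneg_right h (by positivity)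
  have am : ∀ u v : ℝ, u * v ≤ (u ^ 2 + v ^ 2) / 2 := fun u v => by
    nlinarith [sq_nonneg (u - v)]
  have e1 : x ^ m * a * (y ^ m * b) * (d * c) ≤
      ((x ^ m * a) ^ 2 + (y ^ m * b) ^ 2) / 2 * (d * c) :=
    mul_le_mul_of_nonneg_right (am _ _) (by positivity)
  have e2 : x ^ m * a * (d ^ m * c) * (y * b) ≤
      ((x ^ m * a) ^ 2 + (d ^ m * c) ^ 2) / 2 * (y * b) :=
    mul_le_mul_of_nonneg_right (am _ _) (by positivity)
  have e3 : y ^ m * b * (d ^ m * c) * (x * a) ≤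
      ((y ^ m * b) ^ 2 + (d ^ m * c) ^ 2) / 2 * (x * a) :=
    mul_le_mul_of_nonneg_right (am _ _) (by positivity)
  have e4 := mul_le_mul_of_nonneg_left (add_le_add (add_le_add e1 e2) e3) hK
  refine h1.trans ((le_of_eq ?_).trans (e4.trans (le_of_eq ?_)))
  · ring
  · have p1 : ∀ u v : ℝ, (u ^ m * v) ^ 2 = u ^ (2 * m) * v ^ 2 := fun u v => by
      rw [mul_pow, ← pow_mul, mul_comm m 2]
    rw [p1, p1, p1]
    ring

/-! ### The sums -/

theorem fin_supp (R : ℕ) : {k : Z3 | nsq k ≤ (R : ℤ)}.Finite := by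
  refine (Set.finite_Icc (fun _ : Fin 3 => -(R : ℤ)) (fun _ => (R : ℤ))).subset fun k hk => ?_
  have h1 : ∀ j, k j ^ 2 ≤ (R : ℤ) := fun j =>
    (Finset.single_le_sum (f := fun j => k j ^ 2) (fun i _ => sq_nonneg _)
      (Finset.mem_univ j)).trans hk
  have h2 : ∀ j, |k j| ≤ (R : ℤ) := by
    intro j
    by_contra hcon
    push Not at hcon
    have h3 : (0 : ℤ) ≤ R := Int.natCast_nonneg R
    have h4 : (k j) ^ 2 = |k j| ^ 2 := (sq_abs _).symm
    have h5 := h1 j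
    rw [h4] at h5
    nlinarith
  rw [Set.mem_Icc]
  exact ⟨fun j => (abs_le.1 (h2 j)).1, fun j => (abs_le.1 (h2 j)).2⟩

theorem sm {R : ℕ} {F : Z3 → ℝ} (h : ∀ k, (R : ℤ) < nsq k → F k = 0) : Summable F := by
  refine summable_of_hasFiniteSupport ((fin_supp R).subset fun k hk => ?_)
  by_contra hcon
  exact hk (h k (not_le.1 hcon))

theorem hs {F G : Z3 → ℝ} (hF : Summable F) (hG : Summable G) (hF0 : ∀ k, 0 ≤ F k)
    (hG0 : ∀ k, 0 ≤ G k) (e : Z3 × Z3 ≃ Z3 × Z3) :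
    HasSum (fun p : Z3 × Z3 => F (e p).1 * G (e p).2) ((∑' k, F k) * ∑' k, G k) := by
  have h1 : Summable fun p : Z3 × Z3 => F p.1 * G p.2 := hF.mul_of_nonneg hG hF0 hG0
  have h2 : HasSum (fun p : Z3 × Z3 => F p.1 * G p.2) ((∑' k, F k) * ∑' k, G k) :=
    hF.hasSum.mul hG.hasSum h1
  exact (Equiv.hasSum_iff e).2 h2

/-- `(k, q) ↦ (k, k - q)` -/
def e1 : Z3 × Z3 ≃ Z3 × Z3 where
  toFun p := (p.1, p.1 - p.2)
  invFun p := (p.1, p.1 - p.2)
  left_inv p := by simp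
  right_inv p := by simp

/-- `(k, q) ↦ (q, k - q)` -/
def e2 : Z3 × Z3 ≃ Z3 × Z3 where
  toFun p := (p.2, p.1 - p.2)
  invFun p := (p.1 + p.2, p.1)
  left_inv p := by simp
  right_inv p := by simp

theorem nm_nonneg (a : C3) : 0 ≤ nm a := Real.sqrt_nonneg _

theorem nm_sq (a : C3) : nm a ^ 2 = Pool.Agent.Y5.V.sq a := by
  unfold nm
  exact Real.sq_sqrt (Finset.sum_nonneg fun j _ => by positivity)

theorem nm_zero : nm (0 : C3) = 0 := by
  simp [nm, Pool.Agent.Y5.V.sq]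

theorem bound (m R : ℕ) (V : Coef) (hV : ∀ k, (R : ℤ) < nsq k → V k = 0) :
    ∑' p : Z3 × Z3, |len p.1 ^ (2 * m) - len p.2 ^ (2 * m)| * min (len p.1) (len p.2) *
      (nm (V (p.1 - p.2)) * nm (V p.2) * nm (V p.1)) ≤ 3 * Km m * (hE m V * hN V) := by
  let F : Z3 → ℝ := fun k => len k ^ (2 * m) * nm (V k) ^ 2
  let G : Z3 → ℝ := fun k => len k * nm (V k)
  have hF : Summable F := sm (R := R) fun k hk => by
    show len k ^ (2 * m) * nm (V k) ^ 2 = 0
    rw [hV k hk, nm_zero]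
    ring
  have hG : Summable G := sm (R := R) fun k hk => by
    show len k * nm (V k) = 0
    rw [hV k hk, nm_zero, mul_zero]
  have hF0 : ∀ k, 0 ≤ F k := fun k => mul_nonneg (pow_nonneg (len_nonneg k) _) (sq_nonneg _)
  have hG0 : ∀ k, 0 ≤ G k := fun k => mul_nonneg (len_nonneg k) (nm_nonneg _)
  have hFE : ∑' k, F k = hE m V := by
    unfold hE
    refine tsum_congr fun k => ?_
    show len k ^ (2 * m) * nm (V k) ^ 2 = _
    rw [nm_sq]
  have hGN : ∑' k, G k = hN V := rfl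
  have s1 := hs hF hG hF0 hG0 e1
  have s2 := hs hF hG hF0 hG0 e2
  have s3 := hs hF hG hF0 hG0 (Equiv.refl _)
  have s4 := hs hF hG hF0 hG0 (e2.trans (Equiv.prodComm _ _))
  have s5 := hs hF hG hF0 hG0 (Equiv.prodComm _ _)
  have s6 := hs hF hG hF0 hG0 (e1.trans (Equiv.prodComm _ _))
  have s := ((((((s1.add s2).add s3).add s4).add s5).add s6).mul_left (Km m / 2))
  rw [hFE, hGN] at s
  have hle : ∀ p : Z3 × Z3, |len p.1 ^ (2 * m) - len p.2 ^ (2 * m)| *
      min (len p.1) (len p.2) * (nm (V (p.1 - p.2)) * nm (V p.2) * nm (V p.1)) ≤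
      Km m / 2 * (F p.1 * G (p.1 - p.2) + F p.2 * G (p.1 - p.2) + F p.1 * G p.2 +
        F (p.1 - p.2) * G p.2 + F p.2 * G p.1 + F (p.1 - p.2) * G p.1) := by
    intro p
    have h1 := pw m (len_nonneg p.1) (len_nonneg p.2) (abs_len_sub p.1 p.2)
    have h2 := alg m (Km_nonneg m) (len_nonneg p.1) (len_nonneg p.2) (len_nonneg (p.1 - p.2))
      (nm_nonneg (V p.1)) (nm_nonneg (V p.2)) (nm_nonneg (V (p.1 - p.2))) h1
    refine h2.trans (le_of_eq ?_)
    show _ = Km m / 2 * (len p.1 ^ (2 * m) * nm (V p.1) ^ 2 *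
      (len (p.1 - p.2) * nm (V (p.1 - p.2))) + len p.2 ^ (2 * m) * nm (V p.2) ^ 2 *
      (len (p.1 - p.2) * nm (V (p.1 - p.2))) + len p.1 ^ (2 * m) * nm (V p.1) ^ 2 *
      (len p.2 * nm (V p.2)) + len (p.1 - p.2) ^ (2 * m) * nm (V (p.1 - p.2)) ^ 2 *
      (len p.2 * nm (V p.2)) + len p.2 ^ (2 * m) * nm (V p.2) ^ 2 * (len p.1 * nm (V p.1)) +
      len (p.1 - p.2) ^ (2 * m) * nm (V (p.1 - p.2)) ^ 2 * (len p.1 * nm (V p.1)))
    ring
  have hnn : ∀ p : Z3 × Z3, 0 ≤ |len p.1 ^ (2 * m) - len p.2 ^ (2 * m)| *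
      min (len p.1) (len p.2) * (nm (V (p.1 - p.2)) * nm (V p.2) * nm (V p.1)) := fun p =>
    mul_nonneg (mul_nonneg (abs_nonneg _) (le_min (len_nonneg _) (len_nonneg _)))
      (mul_nonneg (mul_nonneg (nm_nonneg _) (nm_nonneg _)) (nm_nonneg _))
  have hsum := Summable.of_nonneg_of_le hnn hle s.summable
  refine (hsum.tsum_le_tsum hle s.summable).trans (le_of_eq ?_)
  exact s.tsum_eq.trans (by ring)

theorem t_TRI : S_TRI1 → S_TRI := by
  intro h m
  refine ⟨Real.pi * (3 * Km m), mul_nonneg Real.pi_pos.le (mul_nonneg (by norm_num)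
    (Km_nonneg m)), fun R V h1 h2 h3 h4 => ?_⟩
  have h5 := h (fun k => len k ^ (2 * m)) R V (fun k => by rw [len_neg]) h1 h2 h3 h4
  refine h5.trans ?_
  have h6 := mul_le_mul_of_nonneg_left (bound m R V h1) Real.pi_pos.le
  refine h6.trans (le_of_eq ?_)
  ring

theorem t_ORT : S_TRI1 → S_ORT := by
  intro h R V h1 h2 h3 h4
  have h5 := h (fun _ => 1) R V (fun _ => rfl) h1 h2 h3 h4
  have h6 : ∑' p : Z3 × Z3, |(1 : ℝ) - 1| * min (len p.1) (len p.2) *
      (nm (V (p.1 - p.2)) * nm (V p.2) * nm (V p.1)) = 0 := by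
    simp
  rw [h6, mul_zero] at h5
  have h7 := abs_nonpos_iff.1 h5
  simpa using h7

end Pool.Agent.Y391.VL.Tri2
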